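import Pool.Agent.H737R3.Points

/-!
# Chudnovsky's inequality for finite sets of closed points, over an arbitrary field

`K` is an arbitrary field, `n ≥ 1`. A point of the scheme `P^n_K` is a homogeneous prime ideal of
`K[x_0, …, x_n]` which does not contain all the variables; the points need not be rational over
`K`. For a finite nonempty set `Z` of points with ideal `I_Z` (the intersection of the primes) two
sequences are considered: the intersections of the ordinary powers `P^k` and the intersections of
the symbolic powers `P^(k)`, `P ∈ Z`.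

* For closed points with separable residue fields, over every field `K`, both Waldschmidt constants
  exist and are at least `(α(I_Z) + n - 1) / n`. All points which are rational over `K` are of this
  kind.
* If `K` is perfect, this holds for all finite sets of closed points, and for all finite sets of
  points of the scheme `P^n_K` which do not contain the generic point.

For points which are rational over `K` this is a theorem of the starting library `H737R3`
(Demailly's inequality), which is applied here to finitely many conjugate points over the separable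
closure of `K`, and combined with Galois descent.
-/

set_option autoImplicit false

universe u

namespace Pool.Agent.Results.MP_3eef69_ag.ClosedPoints

open MvPolynomial
open Filter (Tendsto atTop)
open scoped Topology
open Pool.Agent.Chud (mI mu mem_mI_pow_iff mu_mul mu_pos_iff)
open Pool.Agent.H737R3 (PP ptIdeal linI LowW demailly_fat ptIdeal_eq ker_eq_linI)

section definitions

variable {K : Type u} [Field K] {n : ℕ}

/-- `P` is a point of the scheme `P^n_K`: a homogeneous prime ideal of `K[x_0, …, x_n]` which does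
not contain all the variables. -/
structure IsPoint (P : Ideal (MvPolynomial (Fin (n + 1)) K)) : Prop where
  prime : P.IsPrime
  homogeneous : ∀ F ∈ P, ∀ d : ℕ, homogeneousComponent d F ∈ P
  relevant : ∃ i, X i ∉ P

/-- `P` is a closed point of `P^n_K`. -/
def IsClosedPoint (P : Ideal (MvPolynomial (Fin (n + 1)) K)) : Prop :=
  IsPoint P ∧ ∀ Q : Ideal (MvPolynomial (Fin (n + 1)) K), IsPoint Q → P ≤ Q → Q = P

/-- The polynomials in `P` have a common zero different from the origin with coordinates in the
separable closure of `K`. For a closed point `P`: the residue field of `P` is separable over `K`. -/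
def IsSeparablePoint (P : Ideal (MvPolynomial (Fin (n + 1)) K)) : Prop :=
  ∃ v : Fin (n + 1) → SeparableClosure K, v ≠ 0 ∧ ∀ G ∈ P, aeval v G = 0

/-- The intersection of the powers `P^k` for `P ∈ Z`. For `k = 1` this is the ideal of `Z`. -/
def ordPow (Z : Set (Ideal (MvPolynomial (Fin (n + 1)) K))) (k : ℕ) :
    Set (MvPolynomial (Fin (n + 1)) K) :=
  {F | ∀ P ∈ Z, F ∈ P ^ k}

/-- The intersection of the symbolic powers `P^(k)` for `P ∈ Z`, where `F ∈ P^(k)` means that
`s F ∈ P^k` for some `s ∉ P`. -/
def symPow (Z : Set (Ideal (MvPolynomial (Fin (n + 1)) K))) (k : ℕ) :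
    Set (MvPolynomial (Fin (n + 1)) K) :=
  {F | ∀ P ∈ Z, ∃ s, s ∉ P ∧ s * F ∈ P ^ k}

/-- The least degree of a nonzero form in `J`. -/
noncomputable def alpha (J : Set (MvPolynomial (Fin (n + 1)) K)) : ℕ :=
  sInf {d | ∃ F ∈ J, F ≠ 0 ∧ F.IsHomogeneous d}

/-- Every `J_k` contains nonzero forms, the Waldschmidt constant `c = lim α(J_k) / k` exists, it is
the infimum of the `α(J_k) / k`, and it is at least `(a + n - 1) / n`. -/
def Bound (n : ℕ) (J : ℕ → Set (MvPolynomial (Fin (n + 1)) K)) (a : ℕ) : Prop :=
  (∀ k, ∃ F ∈ J k, F ≠ 0 ∧ F.IsHomogeneous (alpha (J k))) ∧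
    ∃ c : ℝ, Tendsto (fun k : ℕ => (alpha (J k) : ℝ) / k) atTop (𝓝 c) ∧
      (∀ k : ℕ, 1 ≤ k → c ≤ (alpha (J k) : ℝ) / k) ∧ ((a : ℝ) + n - 1) / n ≤ c

/-- Chudnovsky's inequality for the set of points `Z`, for the intersections of ordinary powers and
for those of symbolic powers: with `I_Z` the intersection of the primes in `Z`, both Waldschmidt
constants exist and are at least `(α(I_Z) + n - 1) / n`. -/
def Chudnovsky (Z : Set (Ideal (MvPolynomial (Fin (n + 1)) K))) : Prop :=
  Bound n (ordPow Z) (alpha (ordPow Z 1)) ∧ Bound n (symPow Z) (alpha (ordPow Z 1))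

end definitions

section orders

variable {K L : Type u} [Field K] [Field L] [Algebra K L] {n : ℕ}

theorem eval_map_alg (v : Fin (n + 1) → L) (F : MvPolynomial (Fin (n + 1)) K) :
    eval v (map (algebraMap K L) F) = aeval v F := by
  rw [eval_map, aeval_def]

theorem mem_of_symb {P : Ideal (MvPolynomial (Fin (n + 1)) K)}
    {v : Fin (n + 1) → L} (hv : ∀ G ∈ P, aeval v G = 0)
    {s F : MvPolynomial (Fin (n + 1)) K} {k : ℕ} (hs : aeval v s ≠ 0) (h : s * F ∈ P ^ k) :
    map (algebraMap K L) F ∈ mI v ^ k := by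
  have h1 : Ideal.map (map (algebraMap K L)) (P ^ k) ≤ mI v ^ k := by
    rw [Ideal.map_pow]
    apply Ideal.pow_right_mono
    rw [Ideal.map_le_iff_le_comap]
    intro x hx
    rw [Ideal.mem_comap]
    change eval v (map _ x) = 0
    rw [eval_map_alg]
    exact hv x hx
  have h2 := h1 (Ideal.mem_map_of_mem _ h)
  rw [map_mul] at h2
  by_cases hF : map (algebraMap K L) F = 0
  · rw [hF]
    exact Ideal.zero_mem _
  have hs0 : map (algebraMap K L) s ≠ 0 := by
    intro h0
    apply hs
    rw [← eval_map_alg, h0, map_zero]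
  rw [mem_mI_pow_iff v (mul_ne_zero hs0 hF), mu_mul v hs0 hF] at h2
  rw [mem_mI_pow_iff v hF]
  have h3 : mu v (map (algebraMap K L) s) = 0 := by
    by_contra hne
    apply hs
    rw [← eval_map_alg]
    exact (mu_pos_iff v hs0).1 (Nat.pos_of_ne_zero hne)
  omega

theorem eval_conj (σ : L ≃ₐ[K] L)
    (v : Fin (n + 1) → L)
    (G : MvPolynomial (Fin (n + 1)) L) :
    eval (fun i => σ (v i)) (map (σ : L →+* L) G) =
      σ (eval v G) := by
  have h3 : (eval (fun i => σ (v i))).comp
      (map (σ : L →+* L)) =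
      (σ : L →+* L).comp
        (eval v : MvPolynomial (Fin (n + 1)) L →+* L) := by
    apply MvPolynomial.ringHom_ext
    · intro r
      simp
    · intro i
      simp
  exact DFunLike.congr_fun h3 G

theorem map_conj (σ : L ≃ₐ[K] L)
    (F : MvPolynomial (Fin (n + 1)) K) :
    map (σ : L →+* L)
      (map (algebraMap K L) F) =
      map (algebraMap K L) F := by
  rw [MvPolynomial.map_map]
  have h : (σ : L →+* L).comp (algebraMap K L) = algebraMap K L := by
    ext x
    simp
  rw [h]

theorem aeval_conj (σ : L ≃ₐ[K] L)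
    (v : Fin (n + 1) → L) (F : MvPolynomial (Fin (n + 1)) K) :
    aeval (fun i => σ (v i)) F = σ (aeval v F) := by
  rw [← eval_map_alg, ← map_conj σ F, eval_conj, eval_map_alg]

theorem mem_mI_conj (σ : L ≃ₐ[K] L)
    {v : Fin (n + 1) → L} {F : MvPolynomial (Fin (n + 1)) K} {k : ℕ}
    (h : map (algebraMap K L) F ∈ mI v ^ k) :
    map (algebraMap K L) F ∈ mI (fun i => σ (v i)) ^ k := by
  have h1 : Ideal.map (map (σ : L →+* L)) (mI v ^ k) ≤
      mI (fun i => σ (v i)) ^ k := by
    rw [Ideal.map_pow]
    apply Ideal.pow_right_mono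
    rw [Ideal.map_le_iff_le_comap]
    intro x hx
    rw [Ideal.mem_comap]
    change eval _ (map _ x) = 0
    rw [eval_conj]
    have h2 : eval v x = 0 := hx
    rw [h2, map_zero]
  have h2 := h1 (Ideal.mem_map_of_mem _ h)
  rwa [map_conj] at h2

/-- Galois descent of forms with given zeros -/
theorem descent [IsGalois K L] (W : Set (Fin (n + 1) → L))
    (hW : ∀ σ : L ≃ₐ[K] L, ∀ v ∈ W, (fun i => σ (v i)) ∈ W) :
    ∀ (N : ℕ) (G : MvPolynomial (Fin (n + 1)) L) (D : ℕ),
      G.support.card ≤ N → G ≠ 0 → G.IsHomogeneous D → (∀ v ∈ W, eval v G = 0) →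
      ∃ G' : MvPolynomial (Fin (n + 1)) K, G' ≠ 0 ∧ G'.IsHomogeneous D ∧
        ∀ v ∈ W, aeval v G' = 0 := by
  classical
  intro N
  induction N with
  | zero =>
    intro G D h0 hG
    exact absurd (support_eq_empty.1 (Finset.card_eq_zero.1 (Nat.le_zero.1 h0))) hG
  | succ N ih =>
    intro G D hN hG hD hv
    obtain ⟨c, hc⟩ := MvPolynomial.ne_zero_iff.1 hG
    set G₁ : MvPolynomial (Fin (n + 1)) L := C (coeff c G)⁻¹ * G with hG₁
    have hc1 : coeff c G₁ = 1 := by
      rw [hG₁, coeff_C_mul, inv_mul_cancel₀ hc]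
    have hG₁0 : G₁ ≠ 0 := by
      intro h
      rw [h, coeff_zero] at hc1
      exact zero_ne_one hc1
    have hD₁ : G₁.IsHomogeneous D := by
      have := (isHomogeneous_C (Fin (n + 1)) (coeff c G)⁻¹).mul hD
      rwa [zero_add] at this
    have hv₁ : ∀ v ∈ W, eval v G₁ = 0 := by
      intro v hvW
      rw [hG₁, map_mul, hv v hvW, mul_zero]
    have hsupp : G₁.support ⊆ G.support := by
      intro m hm
      rw [mem_support_iff] at hm ⊢
      intro h
      apply hm
      rw [hG₁, coeff_C_mul, h, mul_zero]
    by_cases hfix : ∀ σ : L ≃ₐ[K] L,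
        map (σ : L →+* L) G₁ = G₁
    · have hco : ∀ m, coeff m G₁ ∈ Set.range (algebraMap K L) := by
        intro m
        rw [InfiniteGalois.mem_range_algebraMap_iff_fixed]
        intro σ
        have := congrArg (coeff m) (hfix σ)
        rw [coeff_map] at this
        exact this
      have hr : G₁ ∈ Set.range (map (σ := Fin (n + 1)) (algebraMap K L)) := by
        rw [mem_range_map_iff_coeffs_subset]
        intro x hx
        rw [Finset.mem_coe, mem_coeffs_iff] at hx
        obtain ⟨m, -, rfl⟩ := hx
        exact hco m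
      obtain ⟨G', hG'⟩ := hr
      refine ⟨G', ?_, ?_, ?_⟩
      · rintro rfl
        apply hG₁0
        rw [← hG', map_zero]
      · intro m hm
        apply hD₁
        rw [← hG', coeff_map]
        intro h
        exact hm ((map_eq_zero _).1 h)
      · intro v hvW
        rw [← eval_map_alg, hG']
        exact hv₁ v hvW
    · push Not at hfix
      obtain ⟨σ, hσ⟩ := hfix
      refine ih (map (σ : L →+* L) G₁ - G₁) D ?_
        (sub_ne_zero.2 hσ) ((hD₁.map _).sub hD₁) ?_
      · have h1 : (map (σ : L →+* L) G₁ - G₁).support ⊆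
            G.support.erase c := by
          intro m hm
          rw [mem_support_iff, coeff_sub, coeff_map] at hm
          rw [Finset.mem_erase]
          constructor
          · rintro rfl
            apply hm
            rw [hc1, map_one, sub_self]
          · apply hsupp
            rw [mem_support_iff]
            intro h
            apply hm
            rw [h, map_zero, sub_self]
        have h2 := Finset.card_le_card h1
        rw [Finset.card_erase_of_mem (mem_support_iff.2 hc)] at h2
        omega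
      · intro v hvW
        rw [map_sub, hv₁ v hvW, sub_zero]
        have h1 := eval_conj σ (fun i => σ.symm (v i)) G₁
        simp only [AlgEquiv.apply_symm_apply] at h1
        rw [h1, hv₁ _ (hW σ.symm v hvW), map_zero]

end orders

/-- finitely many zeros determine the least degree -/
theorem finite_low {k : Type u} [Field k] {n : ℕ} (W : Set (Fin (n + 1) → k)) (a : ℕ)
    (h : LowW W (fun _ => 1) a) :
    ∃ T : Finset (Fin (n + 1) → k), (T : Set (Fin (n + 1) → k)) ⊆ W ∧
      LowW (T : Set (Fin (n + 1) → k)) (fun _ => 1) a := by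
  classical
  let V := restrictTotalDegree (Fin (n + 1)) k a
  let S : Finset (Fin (n + 1) → k) → Submodule k V := fun T =>
    ((⨅ v ∈ T, mI v : Ideal (MvPolynomial (Fin (n + 1)) k)).restrictScalars k).comap V.subtype
  have hmem : ∀ (T : Finset (Fin (n + 1) → k)) (x : V), x ∈ S T ↔
      ∀ v ∈ T, eval v (x : MvPolynomial (Fin (n + 1)) k) = 0 := by
    intro T x
    change (x : MvPolynomial (Fin (n + 1)) k) ∈
      (⨅ v ∈ T, mI v : Ideal (MvPolynomial (Fin (n + 1)) k)) ↔ _
    simp only [Submodule.mem_iInf]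
    exact Iff.rfl
  have hwf : WellFounded ((· < ·) : Submodule k V → Submodule k V → Prop) :=
    (inferInstance : IsWellFounded (Submodule k V) (· < ·)).wf
  obtain ⟨-, ⟨T, hTW, rfl⟩, hT⟩ := hwf.has_min
    {U | ∃ T : Finset (Fin (n + 1) → k), (T : Set (Fin (n + 1) → k)) ⊆ W ∧ U = S T}
    ⟨_, ∅, by simp, rfl⟩
  refine ⟨T, hTW, fun F d hF0 hFd hFv => ?_⟩
  by_contra hcon
  rw [not_le] at hcon
  have hx : F ∈ V := (mem_restrictTotalDegree _ _ _).2 (by rw [hFd.totalDegree hF0]; omega)
  have hev : ∀ v ∈ T, eval v F = 0 := by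
    intro v hv
    have := hFv v hv
    rw [pow_one] at this
    exact this
  apply absurd (h F d hF0 hFd ?_) (by omega)
  intro v hv
  rw [pow_one]
  change eval v F = 0
  have h1 : S (insert v T) ≤ S T := by
    intro x hx
    rw [hmem] at hx ⊢
    exact fun q hq => hx q (Finset.mem_insert_of_mem hq)
  have h2 : S (insert v T) = S T := by
    rcases h1.lt_or_eq with h' | h'
    · refine absurd h' (hT _ ⟨insert v T, ?_, rfl⟩)
      rw [Finset.coe_insert]
      exact Set.insert_subset hv hTW
    · exact h'
  have h3 : (⟨F, hx⟩ : V) ∈ S T := (hmem _ _).2 hev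
  rw [← h2, hmem] at h3
  exact h3 v (Finset.mem_insert_self _ _)

section main

variable {K : Type u} [Field K] {n : ℕ}

/-- The zeros of `P` over the field `L` are dense in the set of zeros of `P`. -/
def Dense (L : Type u) [Field L] [Algebra K L] (P : Ideal (MvPolynomial (Fin (n + 1)) K)) : Prop :=
  ∀ F : MvPolynomial (Fin (n + 1)) K, (∀ v : Fin (n + 1) → L,
    (∀ G ∈ P, aeval v G = 0) → aeval v F = 0) → F ∈ P

theorem main_ineq (L : Type u) [Field L] [Algebra K L] [IsGalois K L] (hn : 1 ≤ n) (Z : Set (Ideal (MvPolynomial (Fin (n + 1)) K)))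
    (hne : Z.Nonempty) (hZ : ∀ P ∈ Z, IsPoint P ∧ Dense L P) (k d : ℕ)
    (F : MvPolynomial (Fin (n + 1)) K) (hF0 : F ≠ 0) (hFh : F.IsHomogeneous d)
    (hF : F ∈ symPow Z k) : k * (alpha (ordPow Z 1) + n - 1) ≤ d * n := by
  classical
  set a := alpha (ordPow Z 1) with ha
  let W : Set (Fin (n + 1) → L) :=
    {v | v ≠ 0 ∧ (∃ P ∈ Z, ∀ G ∈ P, aeval v G = 0) ∧
      map (algebraMap K L) F ∈ mI v ^ k}
  have hWσ : ∀ σ : L ≃ₐ[K] L, ∀ v ∈ W,
      (fun i => σ (v i)) ∈ W := by
    rintro σ v ⟨hv0, ⟨P, hP, hPv⟩, hFv⟩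
    refine ⟨?_, ⟨P, hP, fun G hG => ?_⟩, mem_mI_conj σ hFv⟩
    · intro h0
      apply hv0
      funext i
      have := congrFun h0 i
      exact (map_eq_zero σ).1 this
    · rw [aeval_conj, hPv G hG, map_zero]
  -- the points outside the zeros of `s`
  have key : ∀ P ∈ Z, ∀ G' : MvPolynomial (Fin (n + 1)) K, (∀ v ∈ W, aeval v G' = 0) →
      G' ∈ P := by
    intro P hP G' hG'
    obtain ⟨hpt, hd⟩ := hZ P hP
    obtain ⟨s, hs, hsF⟩ := hF P hP
    obtain ⟨i, hi⟩ := hpt.relevant
    have hmem : s * X i * G' ∈ P := by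
      apply hd
      intro v hv
      rw [map_mul, map_mul, aeval_X]
      by_cases h1 : aeval v s = 0
      · rw [h1, zero_mul, zero_mul]
      · by_cases h2 : v i = 0
        · rw [h2, mul_zero, zero_mul]
        · rw [hG' v ⟨?_, ⟨P, hP, hv⟩, mem_of_symb hv h1 hsF⟩, mul_zero]
          rintro rfl
          exact h2 rfl
    rcases hpt.prime.mem_or_mem hmem with h | h
    · rcases hpt.prime.mem_or_mem h with h' | h'
      · exact absurd h' hs
      · exact absurd h' hi
    · exact h
  have hlow : LowW W (fun _ => 1) a := by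
    intro G D hG0 hGh hGv
    obtain ⟨G', hG'0, hG'h, hG'v⟩ := descent W hWσ _ G D le_rfl hG0 hGh (by
      intro v hv
      have := hGv v hv
      rw [pow_one] at this
      exact this)
    rw [ha]
    apply Nat.sInf_le
    refine ⟨G', ?_, hG'0, hG'h⟩
    intro P hP
    rw [pow_one]
    exact key P hP G' hG'v
  have hWne : W.Nonempty := by
    obtain ⟨P, hP⟩ := hne
    by_contra hcon
    rw [Set.not_nonempty_iff_eq_empty] at hcon
    have := key P hP 1 (by rw [hcon]; simp)
    exact (hZ P hP).1.prime.ne_top ((Ideal.eq_top_iff_one _).2 this)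
  obtain ⟨q, hq⟩ := hWne
  obtain ⟨T, hTW, hT⟩ := finite_low W a hlow
  have hF' : map (algebraMap K L) F ≠ 0 := by
    intro h
    apply hF0
    exact map_injective _ (algebraMap K L).injective (by rw [h, map_zero])
  have hins : ((insert q T : Finset (Fin (n + 1) → L)) :
      Set (Fin (n + 1) → L)) ⊆ W := by
    rw [Finset.coe_insert]
    exact Set.insert_subset hq hTW
  have := demailly_fat L n 1 a k d
    ((insert q T : Finset (Fin (n + 1) → L)) :
      Set (Fin (n + 1) → L)) (fun _ => 1)
    (map (algebraMap K L) F) hn le_rfl (Finset.finite_toSet _)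
    ⟨q, Finset.mem_coe.2 (Finset.mem_insert_self _ _), le_rfl⟩
    (fun v hv => (hins hv).1) (by
      intro G D hG0 hGh hGv
      exact hT G D hG0 hGh (fun v hv => by
        have := hGv v (Finset.mem_coe.2 (Finset.mem_insert_of_mem (Finset.mem_coe.1 hv)))
        simpa using this)) hF' (hFh.map _) (fun v hv => by
        rw [mul_one]
        exact (hins hv).2.2)
  have e : 1 + n - 1 = n := by omega
  rwa [e] at this

/-- from forms to the limit -/
theorem bound_of (hn : 1 ≤ n) (J : ℕ → Set (MvPolynomial (Fin (n + 1)) K)) (A : ℕ)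
    (hJ : ∀ k, ∃ F ∈ J k, F ≠ 0 ∧ ∃ d, F.IsHomogeneous d)
    (hmul : ∀ a b F G, F ∈ J a → G ∈ J b → F * G ∈ J (a + b))
    (hin : ∀ (k d : ℕ) (F : MvPolynomial (Fin (n + 1)) K), F ≠ 0 → F.IsHomogeneous d → F ∈ J k →
      k * (A + n - 1) ≤ d * n) : Bound n J A := by
  have hatt : ∀ k, ∃ F ∈ J k, F ≠ 0 ∧ F.IsHomogeneous (alpha (J k)) := by
    intro k
    obtain ⟨F, hF, hF0, d, hd⟩ := hJ k
    have hne : {d | ∃ F ∈ J k, F ≠ 0 ∧ F.IsHomogeneous d}.Nonempty := ⟨d, F, hF, hF0, hd⟩
    exact Nat.sInf_mem hne
  refine ⟨hatt, ?_⟩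
  have hsub : Subadditive (fun r : ℕ => (alpha (J r) : ℝ)) := by
    intro a b
    beta_reduce
    obtain ⟨F, hF, hF0, hFh⟩ := hatt a
    obtain ⟨G, hG, hG0, hGh⟩ := hatt b
    have h1 : alpha (J (a + b)) ≤ alpha (J a) + alpha (J b) :=
      Nat.sInf_le ⟨F * G, hmul a b F G hF hG, mul_ne_zero hF0 hG0, hFh.mul hGh⟩
    exact_mod_cast h1
  have hb : BddBelow (Set.range fun r : ℕ => (fun r : ℕ => (alpha (J r) : ℝ)) r / r) := by
    refine ⟨0, ?_⟩
    rintro _ ⟨r, rfl⟩
    positivity
  refine ⟨_, hsub.tendsto_lim hb, fun k hk => hsub.lim_le_div hb (by omega), ?_⟩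
  refine ge_of_tendsto (hsub.tendsto_lim hb) ?_
  filter_upwards [Filter.eventually_ge_atTop 1] with r hr
  obtain ⟨F, hF, hF0, hFh⟩ := hatt r
  have h1 := hin r _ F hF0 hFh hF
  have h2 := Pool.Agent.H737R3.real_of_nat (a := A) (b := alpha (J r)) (t := 1) (m := r) hn le_rfl
    hr (by rwa [Nat.add_sub_cancel_left])
  have e : ((1 : ℕ) : ℝ) + n - 1 = n := by push_cast; ring
  rwa [e] at h2

theorem bounds (L : Type u) [Field L] [Algebra K L] [IsGalois K L] (hn : 1 ≤ n)
    (Z : Set (Ideal (MvPolynomial (Fin (n + 1)) K)))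
    (hne : Z.Nonempty) (hZ0 : ∃ F ∈ ordPow Z 1, F ≠ 0)
    (hZ : ∀ P ∈ Z, IsPoint P ∧ Dense L P) : Chudnovsky Z := by
  have hsub : ∀ k, ordPow Z k ⊆ symPow Z k := by
    intro k F hF P hP
    refine ⟨1, ?_, by rw [one_mul]; exact hF P hP⟩
    intro h
    exact (hZ P hP).1.prime.ne_top ((Ideal.eq_top_iff_one _).2 h)
  have hform : ∀ k, ∃ F ∈ ordPow Z k, F ≠ 0 ∧ ∃ d, F.IsHomogeneous d := by
    intro k
    obtain ⟨F, hF, hF0⟩ := hZ0
    have hc : ∃ d, homogeneousComponent d F ≠ 0 := by
      by_contra hcon
      push Not at hcon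
      apply hF0
      rw [← sum_homogeneousComponent F]
      exact Finset.sum_eq_zero fun i _ => hcon i
    obtain ⟨d, hd⟩ := hc
    refine ⟨homogeneousComponent d F ^ k, ?_, pow_ne_zero _ hd, d * k,
      (homogeneousComponent_isHomogeneous d F).pow k⟩
    intro P hP
    apply Ideal.pow_mem_pow
    have := hF P hP
    rw [pow_one] at this
    exact (hZ P hP).1.homogeneous F this d
  constructor
  · apply bound_of hn _ _ hform
    · intro a b F G hF hG P hP
      rw [pow_add]
      exact Ideal.mul_mem_mul (hF P hP) (hG P hP)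
    · intro k d F hF0 hFh hF
      exact main_ineq L hn Z hne hZ k d F hF0 hFh (hsub k hF)
  · apply bound_of hn
    · intro k
      obtain ⟨F, hF, h⟩ := hform k
      exact ⟨F, hsub k hF, h⟩
    · intro a b F G hF hG P hP
      obtain ⟨s, hs, hsF⟩ := hF P hP
      obtain ⟨t, ht, htG⟩ := hG P hP
      refine ⟨s * t, ?_, ?_⟩
      · intro h
        rcases (hZ P hP).1.prime.mem_or_mem h with h' | h'
        · exact hs h'
        · exact ht h'
      · rw [pow_add, mul_mul_mul_comm]
        exact Ideal.mul_mem_mul hsF htG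
    · intro k d F hF0 hFh hF
      exact main_ineq L hn Z hne hZ k d F hF0 hFh hF

end main

section line

variable {K L : Type u} [Field K] [Field L] [Algebra K L] {n : ℕ}

/-- the ideal of the line through the origin and `v` -/
noncomputable def lineIdeal (K : Type u) {L : Type u} [Field K] [Field L] [Algebra K L] {n : ℕ}
    (v : Fin (n + 1) → L) : Ideal (MvPolynomial (Fin (n + 1)) K) :=
  RingHom.ker (aeval (fun i => Polynomial.C (v i) * Polynomial.X : Fin (n + 1) → Polynomial L) :
    MvPolynomial (Fin (n + 1)) K →ₐ[K] Polynomial L)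

theorem line_homog (v : Fin (n + 1) → L) (d : ℕ) (F : MvPolynomial (Fin (n + 1)) K)
    (hF : F.IsHomogeneous d) :
    aeval (fun i => Polynomial.C (v i) * Polynomial.X : Fin (n + 1) → Polynomial L) F =
      Polynomial.C (aeval v F) * Polynomial.X ^ d := by
  rw [aeval_def, aeval_def, eval₂_eq', eval₂_eq', map_sum, Finset.sum_mul]
  apply Finset.sum_congr rfl
  intro c hc
  rw [map_mul, map_prod, mul_assoc, Polynomial.algebraMap_apply]
  congr 1
  have h3 : c.degree = d := by
    have := hF (mem_support_iff.1 hc)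
    rwa [Finsupp.degree_eq_weight_one]
  rw [← h3, Finsupp.degree_eq_sum, ← Finset.prod_pow_eq_pow_sum, ← Finset.prod_mul_distrib]
  apply Finset.prod_congr rfl
  intro i _
  rw [mul_pow, map_pow]

theorem mem_line {v : Fin (n + 1) → L} {F : MvPolynomial (Fin (n + 1)) K} :
    F ∈ lineIdeal K v ↔ ∀ d, aeval v (homogeneousComponent d F) = 0 := by
  have h2 : aeval (fun i => Polynomial.C (v i) * Polynomial.X : Fin (n + 1) → Polynomial L) F =
      ∑ i ∈ Finset.range (F.totalDegree + 1),
        Polynomial.C (aeval v (homogeneousComponent i F)) * Polynomial.X ^ i := by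
    conv_lhs => rw [← sum_homogeneousComponent F]
    rw [map_sum]
    apply Finset.sum_congr rfl
    intro i _
    exact line_homog v i _ (homogeneousComponent_isHomogeneous i F)
  unfold lineIdeal
  rw [RingHom.mem_ker]
  constructor
  · intro h d
    change aeval _ F = 0 at h
    rw [h] at h2
    by_cases hd : d < F.totalDegree + 1
    · have h3 := congrArg (fun q => Polynomial.coeff q d) h2
      simp only [Polynomial.coeff_zero, Polynomial.finsetSum_coeff, Polynomial.coeff_C_mul,
        Polynomial.coeff_X_pow, mul_ite, mul_one, mul_zero] at h3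
      rw [Finset.sum_ite_eq] at h3
      rw [if_pos (Finset.mem_range.2 hd)] at h3
      exact h3.symm
    · rw [homogeneousComponent_eq_zero d F (by omega), map_zero]
  · intro h
    change aeval _ F = 0
    rw [h2]
    apply Finset.sum_eq_zero
    intro i _
    rw [h i, map_zero, zero_mul]

theorem isPoint_line {v : Fin (n + 1) → L} (hv : v ≠ 0) : IsPoint (lineIdeal K v) := by
  refine ⟨RingHom.ker_isPrime _, ?_, ?_⟩
  · intro F hF d
    rw [mem_line] at hF ⊢
    intro e
    rw [homogeneousComponent_of_mem (homogeneousComponent_mem d F)]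
    split_ifs
    · exact hF d
    · exact map_zero _
  · obtain ⟨i, hi⟩ : ∃ i, v i ≠ 0 := by
      by_contra hcon
      push Not at hcon
      exact hv (funext hcon)
    refine ⟨i, fun h => hi ?_⟩
    have := mem_line.1 h 1
    rw [homogeneousComponent_of_mem (isHomogeneous_X K i), if_pos rfl, aeval_X] at this
    exact this

theorem line_eval (v : Fin (n + 1) → L) (c : L) (F : MvPolynomial (Fin (n + 1)) K) :
    Polynomial.eval c
      (aeval (fun i => Polynomial.C (v i) * Polynomial.X : Fin (n + 1) → Polynomial L) F) =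
      aeval (fun i => v i * c) F := by
  induction F using MvPolynomial.induction_on with
  | C a => simp
  | add p q hp hq => rw [map_add, map_add, Polynomial.eval_add, hp, hq]
  | mul_X p i hp => rw [map_mul, map_mul, Polynomial.eval_mul, hp]; simp

theorem dense_line [Infinite L] (v : Fin (n + 1) → L) : Dense L (lineIdeal K v) := by
  intro F hF
  change aeval _ F = 0
  apply Polynomial.funext
  intro c
  rw [line_eval, Polynomial.eval_zero]
  apply hF
  intro G hG
  have hG' : aeval (fun i => Polynomial.C (v i) * Polynomial.X : Fin (n + 1) → Polynomial L) G = 0 :=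
    hG
  rw [← line_eval, hG', Polynomial.eval_zero]

theorem le_line {P : Ideal (MvPolynomial (Fin (n + 1)) K)} (hP : IsPoint P)
    {v : Fin (n + 1) → L} (hv : ∀ G ∈ P, aeval v G = 0) : P ≤ lineIdeal K v := by
  intro G hG
  rw [mem_line]
  intro d
  exact hv _ (hP.homogeneous G hG d)

theorem closed_eq_line {P : Ideal (MvPolynomial (Fin (n + 1)) K)} (hP : IsClosedPoint P)
    {v : Fin (n + 1) → L} (hv0 : v ≠ 0) (hv : ∀ G ∈ P, aeval v G = 0) : lineIdeal K v = P :=
  hP.2 _ (isPoint_line hv0) (le_line hP.1 hv)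

theorem closed_ne_bot (hn : 1 ≤ n) {P : Ideal (MvPolynomial (Fin (n + 1)) K)}
    (hP : IsClosedPoint P) : P ≠ ⊥ := by
  rintro rfl
  have h0 : (Pi.single 0 1 : Fin (n + 1) → K) ≠ 0 := by
    intro h
    have := congrFun h 0
    simp at this
  have h := hP.2 _ (isPoint_line (K := K) h0) bot_le
  have h1 : (X ⟨1, by omega⟩ : MvPolynomial (Fin (n + 1)) K) ∈
      lineIdeal K (Pi.single 0 1 : Fin (n + 1) → K) := by
    rw [mem_line]
    intro d
    rw [homogeneousComponent_of_mem (isHomogeneous_X K _)]
    split_ifs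
    · rw [aeval_X, Pi.single_eq_of_ne]
      intro h
      have := congrArg Fin.val h
      simp at this
    · exact map_zero _
  rw [h] at h1
  exact X_ne_zero _ h1

/-- the ideal of a rational point is a closed point -/
theorem closed_line {v : Fin (n + 1) → K} (hv : v ≠ 0) : IsClosedPoint (lineIdeal K v) := by
  refine ⟨isPoint_line hv, fun Q hQ hle => le_antisymm ?_ hle⟩
  obtain ⟨j, hj⟩ : ∃ i, v i ≠ 0 := by
    by_contra hcon
    push Not at hcon
    exact hv (funext hcon)
  have hXj : X j ∉ Q := by
    intro hX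
    obtain ⟨i, hi⟩ := hQ.relevant
    apply hi
    have h1 : (C (v j) * X i - C (v i) * X j : MvPolynomial (Fin (n + 1)) K) ∈ Q := by
      apply hle
      have hh : (C (v j) * X i - C (v i) * X j : MvPolynomial (Fin (n + 1)) K).IsHomogeneous 1 := by
        have h1 := (isHomogeneous_C (Fin (n + 1)) (v j)).mul (isHomogeneous_X K i)
        have h2 := (isHomogeneous_C (Fin (n + 1)) (v i)).mul (isHomogeneous_X K j)
        exact h1.sub h2
      rw [mem_line]
      intro d
      rw [homogeneousComponent_of_mem hh]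
      split_ifs
      · simp only [map_sub, map_mul, aeval_X, algHom_C]
        simp only [Algebra.algebraMap_self, RingHom.id_apply]
        ring
      · exact map_zero _
    have h2 : (X i : MvPolynomial (Fin (n + 1)) K) =
        C (v j)⁻¹ * ((C (v j) * X i - C (v i) * X j) + C (v i) * X j) := by
      rw [sub_add_cancel, ← mul_assoc, ← map_mul, inv_mul_cancel₀ hj, map_one, one_mul]
    rw [h2]
    exact Ideal.mul_mem_left _ _ (Ideal.add_mem _ h1 (Ideal.mul_mem_left _ _ hX))
  intro G hG
  rw [mem_line]
  intro d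
  have hGd := hQ.homogeneous G hG d
  have hGh := homogeneousComponent_isHomogeneous d G
  set H := homogeneousComponent d G with hH
  have hh : (C (v j ^ d) * H - C (aeval v H) * X j ^ d :
      MvPolynomial (Fin (n + 1)) K).IsHomogeneous d := by
    have h1 := (isHomogeneous_C (Fin (n + 1)) (v j ^ d)).mul hGh
    have h2 := (isHomogeneous_C (Fin (n + 1)) (aeval v H)).mul (isHomogeneous_X_pow (R := K) j d)
    rw [zero_add] at h1 h2
    exact h1.sub h2
  have h1 : (C (v j ^ d) * H - C (aeval v H) * X j ^ d : MvPolynomial (Fin (n + 1)) K) ∈ Q := by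
    apply hle
    rw [mem_line]
    intro e
    rw [homogeneousComponent_of_mem hh]
    split_ifs
    · simp only [map_sub, map_mul, map_pow, aeval_X, algHom_C]
      simp only [Algebra.algebraMap_self, RingHom.id_apply]
      ring
    · exact map_zero _
  have h2 : (C (aeval v H) * X j ^ d : MvPolynomial (Fin (n + 1)) K) ∈ Q := by
    have := Ideal.sub_mem _ (Ideal.mul_mem_left Q (C (v j ^ d)) hGd) h1
    rwa [sub_sub_cancel] at this
  by_contra hne
  have h3 : (X j : MvPolynomial (Fin (n + 1)) K) ^ d ∈ Q := by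
    have := Ideal.mul_mem_left Q (C (aeval v H)⁻¹) h2
    rwa [← mul_assoc, ← map_mul, inv_mul_cancel₀ hne, map_one, one_mul] at this
  exact hXj (hQ.prime.mem_of_pow_mem d h3)

theorem ptIdeal_line (p : PP K n) : ptIdeal p = lineIdeal K p.rep := by
  rw [ptIdeal_eq, ← ker_eq_linI p.rep_nonzero]
  rfl

end line

section perfect

variable {K : Type u} [Field K] {n : ℕ}

theorem dense_of_perfect [PerfectField K] {P : Ideal (MvPolynomial (Fin (n + 1)) K)}
    (hP : P.IsPrime) : Dense (SeparableClosure K) P := by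
  intro F hF
  have : PerfectField (SeparableClosure K) := Algebra.IsAlgebraic.perfectField K
  have : IsAlgClosed (SeparableClosure K) := inferInstance
  rw [← IsPrime.vanishingIdeal_zeroLocus (K := SeparableClosure K) P]
  exact hF

theorem infinite_sep (K : Type u) [Field K] : Infinite (SeparableClosure K) := by
  by_cases h : Finite K
  · have : PerfectField (SeparableClosure K) := Algebra.IsAlgebraic.perfectField K
    have : IsAlgClosed (SeparableClosure K) := inferInstance
    exact IsAlgClosed.instInfinite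
  · have : Infinite K := not_finite_iff_infinite.1 h
    exact Infinite.of_injective _ (algebraMap K (SeparableClosure K)).injective

theorem finite_nonzero {Z : Set (Ideal (MvPolynomial (Fin (n + 1)) K))} (hZ : Z.Finite)
    (h : ∀ P ∈ Z, P ≠ ⊥) : ∃ F ∈ ordPow Z 1, F ≠ 0 := by
  classical
  have h1 : ∀ P : Ideal (MvPolynomial (Fin (n + 1)) K), ∃ F : MvPolynomial (Fin (n + 1)) K,
      P ∈ Z → F ∈ P ∧ F ≠ 0 := by
    intro P
    by_cases hP : P ∈ Z
    · obtain ⟨F, hF, hF0⟩ := Submodule.exists_mem_ne_zero_of_ne_bot (h P hP)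
      exact ⟨F, fun _ => ⟨hF, hF0⟩⟩
    · exact ⟨0, fun h => absurd h hP⟩
  choose f hf using h1
  refine ⟨∏ P ∈ hZ.toFinset, f P, ?_, Finset.prod_ne_zero_iff.2 fun P hP =>
    (hf P (hZ.mem_toFinset.1 hP)).2⟩
  intro P hP
  rw [pow_one]
  exact Ideal.mem_of_dvd _ (Finset.dvd_prod_of_mem f (hZ.mem_toFinset.2 hP)) (hf P hP).1

end perfect

/-- **Chudnovsky's inequality** for sets of closed points with separable residue fields, over every
field `K`; all points which are rational over `K` are of this kind. If `K` is perfect: for all sets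
of points of the scheme `P^n_K`. The set `Z` is finite, or more generally `I_Z` is not zero. -/
theorem result (K : Type u) [Field K] (n : ℕ) (hn : 1 ≤ n) :
    (∀ Z : Set (Ideal (MvPolynomial (Fin (n + 1)) K)), Z.Nonempty →
      (∀ P ∈ Z, IsClosedPoint P ∧ IsSeparablePoint P) →
      (Z.Finite ∨ ∃ F ∈ ordPow Z 1, F ≠ 0) → Chudnovsky Z) ∧
    (∀ p : PP K n, IsClosedPoint (ptIdeal p) ∧ IsSeparablePoint (ptIdeal p)) ∧
    (PerfectField K → ∀ Z : Set (Ideal (MvPolynomial (Fin (n + 1)) K)), Z.Nonempty →
      ((∀ P ∈ Z, IsClosedPoint P) ∨ (∀ P ∈ Z, IsPoint P ∧ P ≠ ⊥)) →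
      (Z.Finite ∨ ∃ F ∈ ordPow Z 1, F ≠ 0) → Chudnovsky Z) := by
  have := infinite_sep K
  refine ⟨?_, ?_, ?_⟩
  · intro Z hne hZ h0
    refine bounds (SeparableClosure K) hn Z hne ?_ ?_
    · rcases h0 with h | h
      · exact finite_nonzero h fun P hP => closed_ne_bot hn (hZ P hP).1
      · exact h
    · intro P hP
      obtain ⟨hcl, v, hv0, hv⟩ := hZ P hP
      refine ⟨hcl.1, ?_⟩
      rw [← closed_eq_line hcl hv0 hv]
      exact dense_line v
  · intro p
    rw [ptIdeal_line]
    refine ⟨closed_line p.rep_nonzero, fun i => algebraMap K _ (p.rep i), ?_, ?_⟩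
    · intro h
      apply p.rep_nonzero
      funext i
      have := congrFun h i
      exact (map_eq_zero _).1 this
    · intro G hG
      have hG' : aeval (fun i => Polynomial.C (p.rep i) * Polynomial.X :
          Fin (n + 1) → Polynomial K) G = 0 := hG
      have h1 : aeval p.rep G = 0 := by
        have := line_eval p.rep 1 G
        rw [hG', Polynomial.eval_zero] at this
        simpa using this.symm
      have h2 := aeval_algebraMap_apply (SeparableClosure K) p.rep G
      rw [h1, map_zero] at h2
      exact h2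
  · intro hK Z hne hZ h0
    have hZ' : ∀ P ∈ Z, IsPoint P ∧ P ≠ ⊥ := by
      rcases hZ with h | h
      · exact fun P hP => ⟨(h P hP).1, closed_ne_bot hn (h P hP)⟩
      · exact h
    refine bounds (SeparableClosure K) hn Z hne ?_
      fun P hP => ⟨(hZ' P hP).1, dense_of_perfect (hZ' P hP).1.prime⟩
    rcases h0 with h | h
    · exact finite_nonzero h fun P hP => (hZ' P hP).2
    · exact h

end Pool.Agent.Results.MP_3eef69_ag.ClosedPoints
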